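import Pool.Agent.MBX.Stmts
import Pool.Agent.Helper41_Pauli.Assemble
import Pool.Agent.Helper49_Pauli.SelfEn
import Pool.Agent.Helper83_Pauli.Symm

/-!
# MBX (MP_8cfbae_mp): row UPP, the upper bound
-/

set_option autoImplicit false

open MeasureTheory Complex ProbabilityTheory

namespace Pool.Agent.MBX.H88

open Pool.Agent.Helper49_Pauli
open Pool.Agent.Helper75_Pauli

/-- The square of the squeezed Gaussian with `K = kap` times the identity. -/
noncomputable def sz {ι : Type} [Fintype ι] [DecidableEq ι] (kap : ℝ) (y : EuclideanSpace ℝ ι) : ℝ :=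
  squeezed (fun i j : ι => if i = j then kap else 0) 0 (fun i => y i) ^ 2

lemma sz_nonneg {ι : Type} [Fintype ι] [DecidableEq ι] (kap : ℝ) (y : EuclideanSpace ℝ ι) :
    0 ≤ sz kap y := sq_nonneg _

lemma sz_cont {ι : Type} [Fintype ι] [DecidableEq ι] (kap : ℝ) :
    Continuous (sz (ι := ι) kap) := by
  unfold sz squeezed quad
  fun_prop

lemma nn_nonneg {ι : Type} [Fintype ι] (y : ι → ℝ) : 0 ≤ nn y :=
  Finset.sum_nonneg fun _ _ => sq_nonneg _

lemma nn_cont {ι : Type} [Fintype ι] : Continuous fun y : EuclideanSpace ℝ ι => nn fun i => y i := by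
  unfold nn
  fun_prop

/-- Integration of quadratic polynomials in `|y|^2`. -/
lemma lin3 {ι : Type} [Fintype ι] [DecidableEq ι] {kap Z m1 m2 : ℝ} (hZ : 0 ≤ Z) (h1 : 0 ≤ m1)
    (h2 : 0 ≤ m2)
    (e0 : ∫⁻ y, ENNReal.ofReal (sz (ι := ι) kap y) ∂stdGaussian (EuclideanSpace ℝ ι) =
      ENNReal.ofReal Z)
    (e1 : ∫⁻ y, ENNReal.ofReal (sz (ι := ι) kap y * nn fun i => y i)
      ∂stdGaussian (EuclideanSpace ℝ ι) ≤ ENNReal.ofReal (Z * m1))
    (e2 : ∫⁻ y, ENNReal.ofReal (sz (ι := ι) kap y * (nn fun i => y i) ^ 2)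
      ∂stdGaussian (EuclideanSpace ℝ ι) ≤ ENNReal.ofReal (Z * m2))
    {c0 c1 c2 : ℝ} (hc0 : 0 ≤ c0) (hc1 : 0 ≤ c1) (hc2 : 0 ≤ c2) :
    ∫⁻ y, ENNReal.ofReal (sz (ι := ι) kap y * (c0 + c1 * (nn fun i => y i) +
      c2 * (nn fun i => y i) ^ 2)) ∂stdGaussian (EuclideanSpace ℝ ι) ≤
      ENNReal.ofReal (Z * (c0 + c1 * m1 + c2 * m2)) := by
  have hs := sz_cont (ι := ι) kap
  have hn := nn_cont (ι := ι)
  have e : ∀ y : EuclideanSpace ℝ ι, ENNReal.ofReal (sz (ι := ι) kap y *
      (c0 + c1 * (nn fun i => y i) + c2 * (nn fun i => y i) ^ 2)) =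
      ENNReal.ofReal c0 * ENNReal.ofReal (sz (ι := ι) kap y) +
      (ENNReal.ofReal c1 * ENNReal.ofReal (sz (ι := ι) kap y * nn fun i => y i) +
      ENNReal.ofReal c2 * ENNReal.ofReal (sz (ι := ι) kap y * (nn fun i => y i) ^ 2)) := by
    intro y
    have h3 := sz_nonneg (ι := ι) kap y
    have h4 := nn_nonneg fun i => y i
    rw [← ENNReal.ofReal_mul hc0, ← ENNReal.ofReal_mul hc1, ← ENNReal.ofReal_mul hc2,
      ← ENNReal.ofReal_add (by positivity) (by positivity),
      ← ENNReal.ofReal_add (by positivity) (by positivity)]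
    congr 1
    ring
  simp_rw [e]
  have m0 : Measurable fun y : EuclideanSpace ℝ ι =>
      ENNReal.ofReal c0 * ENNReal.ofReal (sz (ι := ι) kap y) :=
    (hs.measurable.ennreal_ofReal).const_mul _
  have m1' : Measurable fun y : EuclideanSpace ℝ ι =>
      ENNReal.ofReal c1 * ENNReal.ofReal (sz (ι := ι) kap y * nn fun i => y i) :=
    ((hs.mul hn).measurable.ennreal_ofReal).const_mul _
  rw [lintegral_add_left m0, lintegral_add_left m1', lintegral_const_mul' _ _ ENNReal.ofReal_ne_top,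
    lintegral_const_mul' _ _ ENNReal.ofReal_ne_top, lintegral_const_mul' _ _ ENNReal.ofReal_ne_top,
    e0]
  calc ENNReal.ofReal c0 * ENNReal.ofReal Z + (ENNReal.ofReal c1 *
        ∫⁻ y, ENNReal.ofReal (sz (ι := ι) kap y * nn fun i => y i)
          ∂stdGaussian (EuclideanSpace ℝ ι) + ENNReal.ofReal c2 *
        ∫⁻ y, ENNReal.ofReal (sz (ι := ι) kap y * (nn fun i => y i) ^ 2)
          ∂stdGaussian (EuclideanSpace ℝ ι))
      ≤ ENNReal.ofReal c0 * ENNReal.ofReal Z + (ENNReal.ofReal c1 * ENNReal.ofReal (Z * m1) +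
        ENNReal.ofReal c2 * ENNReal.ofReal (Z * m2)) := by gcongr
    _ = ENNReal.ofReal (Z * (c0 + c1 * m1 + c2 * m2)) := by
      rw [← ENNReal.ofReal_mul hc0, ← ENNReal.ofReal_mul hc1, ← ENNReal.ofReal_mul hc2,
        ← ENNReal.ofReal_add (by positivity) (by positivity),
        ← ENNReal.ofReal_add (by positivity) (by positivity)]
      congr 1
      ring

/-- The integral over the position. -/
lemma inner_le {S a b : ℝ} (hS : 0 ≤ S) (ha : 0 ≤ a) (hb : 0 ≤ b) {F G1 G0 : X3 → ℝ}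
    (i1 : Integrable G1) (i0 : Integrable G0) (n1 : ∀ x, 0 ≤ G1 x) (n0 : ∀ x, 0 ≤ G0 x)
    (hF : ∀ x, F x ≤ a * G1 x + b * G0 x) :
    ∫⁻ x, ENNReal.ofReal (S * F x) ≤ ENNReal.ofReal (S * (a * (∫ x, G1 x) + b * ∫ x, G0 x)) := by
  have hi : Integrable fun x => S * (a * G1 x + b * G0 x) :=
    ((i1.const_mul a).add (i0.const_mul b)).const_mul S
  calc ∫⁻ x, ENNReal.ofReal (S * F x)
      ≤ ∫⁻ x, ENNReal.ofReal (S * (a * G1 x + b * G0 x)) := by
        refine lintegral_mono fun x => ENNReal.ofReal_le_ofReal ?_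
        exact mul_le_mul_of_nonneg_left (hF x) hS
    _ = ENNReal.ofReal (∫ x, S * (a * G1 x + b * G0 x)) := by
        rw [ofReal_integral_eq_lintegral_ofReal hi (Filter.Eventually.of_forall fun x => ?_)]
        have := n1 x
        have := n0 x
        positivity
    _ = _ := by
        rw [integral_const_mul, integral_add (i1.const_mul a) (i0.const_mul b),
          integral_const_mul, integral_const_mul]

/-- A bump function. -/
lemma exists_bump : ∃ g : X3 → ℝ, ContDiff ℝ (⊤ : ℕ∞) g ∧ HasCompactSupport g ∧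
    0 < ∫ x, g x ^ 2 := by
  obtain ⟨f⟩ : Nonempty (ContDiffBump (0 : X3)) := inferInstance
  refine ⟨f, f.contDiff, f.hasCompactSupport, ?_⟩
  have hc : Continuous fun x => (f x) ^ 2 := f.continuous.pow 2
  refine hc.integral_pos_of_hasCompactSupport_nonneg_nonzero ?_ (fun x => sq_nonneg _) (x := 0) ?_
  · exact f.hasCompactSupport.comp_left (g := fun t : ℝ => t ^ 2) (by simp)
  · simp only [ne_eq, pow_eq_zero_iff, OfNat.ofNat_ne_zero, not_false_eq_true]
    have := f.one_of_mem_closedBall (x := 0) (by simp [f.rIn_pos.le])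
    rw [this]
    norm_num

/-- Continuity and integrability of the squares of the derivatives. -/
lemma grad_int {g : X3 → ℝ} (h : ContDiff ℝ (⊤ : ℕ∞) g) (hc : HasCompactSupport g) :
    Integrable fun x => ∑ j, pd j g x ^ 2 := by
  refine integrable_finsetSum _ fun j _ => ?_
  have h1 : Continuous fun x => pd j g x := by
    unfold pd
    exact (h.continuous_fderiv (by simp)).clm_apply continuous_const
  refine (h1.pow 2).integrable_of_hasCompactSupport ?_
  have h2 : HasCompactSupport fun x => pd j g x := hc.fderiv_apply (𝕜 := ℝ) _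
  exact h2.comp_left (g := fun t : ℝ => t ^ 2) (by simp)

section modes

variable {cut L : ℝ}

lemma am_eq (hL : 0 < L) (i : Mode cut L) :
    Real.sqrt (2 / L ^ 3) / Real.sqrt (2 * Real.sqrt (Helper49_Pauli.sq (kk i))) = am i := by
  have hr : 0 < Real.sqrt (Helper49_Pauli.sq (kk i)) :=
    Real.sqrt_pos.mpr (Half.sqn_wave_pos hL (Half.mode_ne i))
  have e : om i = Real.sqrt (Helper49_Pauli.sq (kk i)) := rfl
  unfold am
  rw [e, ← Real.sqrt_div (by positivity), one_div, ← Real.sqrt_inv]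
  congr 1
  field_simp

lemma vp_eq (hL : 0 < L) (alpha : ℝ) (P : Polarization L) (y : Mode cut L → ℝ) :
    vp alpha (kk (cut := cut) (L := L)) (fun i j => Real.sqrt (2 / L ^ 3) * P.e i.1 i.2 j) tt y =
      VV alpha P y := by
  funext x j
  unfold vp VV fA ph
  rw [Pi.smul_apply, smul_eq_mul]
  congr 1
  refine Finset.sum_congr rfl fun i _ => ?_
  rw [← am_eq hL i]
  ring

lemma pot_eq (hL : 0 < L) (P : Polarization L) {D : Type} [NormedAddCommGroup D]
    [InnerProductSpace ℂ D] (F : Bosons (Mode cut L) D) (x : X3) (j : Fin 3) (v : D) :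
    potential F P x j v = ∑ i, ((Real.cos (dot (kk i) x - tt i) *
      (Real.sqrt (2 / L ^ 3) * P.e i.1 i.2 j) / Real.sqrt (2 * Real.sqrt
        (Helper49_Pauli.sq (kk i))) : ℝ) : ℂ) •
      ((Half.rot F (Half.U P) (Half.unitary hL P)).a i v +
        (Half.rot F (Half.U P) (Half.unitary hL P)).ad i v) := by
  have e1 : ∀ i, (Half.rot F (Half.U P) (Half.unitary hL P)).a i v =
      ∑ m, Half.U P i m • F.a m v := by
    intro i
    change (∑ m, Half.U P i m • F.a m) v = _
    rw [LinearMap.sum_apply]; rfl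
  have e2 : ∀ i, (Half.rot F (Half.U P) (Half.unitary hL P)).ad i v =
      ∑ m, (starRingEnd ℂ) (Half.U P i m) • F.ad m v := by
    intro i
    change (∑ m, (starRingEnd ℂ) (Half.U P i m) • F.ad m) v = _
    rw [LinearMap.sum_apply]; rfl
  have e3 : ∀ i : Mode cut L, ((Real.cos (dot (kk i) x - tt i) *
      (Real.sqrt (2 / L ^ 3) * P.e i.1 i.2 j) /
        Real.sqrt (2 * Real.sqrt (Helper49_Pauli.sq (kk i))) : ℝ) : ℂ) =
      ((Half.cf P x j i : ℝ) : ℂ) :=
    fun i => rfl
  simp_rw [e3, e1, e2, smul_add, Finset.smul_sum, ← mul_smul]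
  rw [Finset.sum_add_distrib, Finset.sum_comm, Finset.sum_comm (f := fun (i m : Mode cut L) =>
    (((Half.cf P x j i : ℝ) : ℂ) * (starRingEnd ℂ) (Half.U P i m)) • F.ad m v)]
  rw [← Finset.sum_add_distrib]
  unfold potential
  refine Finset.sum_congr rfl fun m _ => ?_
  rw [← Finset.sum_smul, ← Finset.sum_smul, Half.coef_sum hL, smul_add, ← mul_smul, ← mul_smul]
  congr 2
  have := congrArg (starRingEnd ℂ) (Half.coef_sum (cut := cut) hL P x j m)
  rw [map_sum] at this
  simp_rw [map_mul, Complex.conj_ofReal] at this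
  rw [this]
  congr 1
  rw [← Complex.exp_conj, map_mul, Complex.conj_ofReal, Complex.conj_I, neg_mul]

lemma fe_eq (hL : 0 < L) (P : Polarization L) {D : Type} [NormedAddCommGroup D]
    [InnerProductSpace ℂ D] (F : Bosons (Mode cut L) D) (v : D) :
    fieldEnergy F v = ∑ i : Mode cut L, (Real.sqrt (Helper49_Pauli.sq (kk i)) : ℂ) •
      (Half.rot F (Half.U P) (Half.unitary hL P)).ad i
        ((Half.rot F (Half.U P) (Half.unitary hL P)).a i v) :=
  (Half.rot_energy F (Half.U P) (Half.unitary hL P) (fun i => (freq L i.1 : ℂ))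
      (fun i j h => by rw [Half.U_freq P i j h]) v).symm

/-- The pointwise bound of the field energy. -/
lemma field_pt {alpha kap : ℝ} (hcut : 0 ≤ cut) {g : ℝ}
    (hom : ∀ i : Mode cut L, om i < cut) (y : Mode cut L → ℝ) (v : Mode cut L → S2) (w : S2)
    (hv : ∀ i, nsq (v i) ≤ alpha * g ^ 2)
    (hw : nsq w ≤ 2 * g ^ 2 * (1 + alpha * Fintype.card (Mode cut L) * nn y)) :
    ∑ i, Real.sqrt (Helper49_Pauli.sq (kk i)) *
      nsq (v i + (ldq (fun i j : Mode cut L => if i = j then kap else 0) 0 y i : ℂ) • w) ≤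
      cut * (2 * alpha * Fintype.card (Mode cut L) + kap ^ 2 * nn y +
        kap ^ 2 * (alpha * Fintype.card (Mode cut L)) * nn y ^ 2) * g ^ 2 := by
  have hl : ∀ i, ldq (fun i j : Mode cut L => if i = j then kap else 0) 0 y i = -(kap * y i / 2) := by
    intro i
    unfold ldq
    simp
  have h1 : ∀ i : Mode cut L, Real.sqrt (Helper49_Pauli.sq (kk i)) *
      nsq (v i + (ldq (fun i j : Mode cut L => if i = j then kap else 0) 0 y i : ℂ) • w) ≤
      cut * (2 * (alpha * g ^ 2) + kap ^ 2 / 2 * nsq w * y i ^ 2) := by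
    intro i
    have h2 := Asm.nsq_add_le (v i)
      ((ldq (fun i j : Mode cut L => if i = j then kap else 0) 0 y i : ℂ) • w)
    rw [Asm.nsq_smul, hl i, Complex.norm_real, Real.norm_eq_abs, sq_abs] at h2
    have h3 : Real.sqrt (Helper49_Pauli.sq (kk i)) ≤ cut := (hom i).le
    have h4 := hv i
    have h5 : nsq (v i + ((-(kap * y i / 2) : ℝ) : ℂ) • w) ≤
        2 * (alpha * g ^ 2) + kap ^ 2 / 2 * nsq w * y i ^ 2 := by
      refine h2.trans ?_
      have h6 : 2 * ((-(kap * y i / 2)) ^ 2 * nsq w) = kap ^ 2 / 2 * nsq w * y i ^ 2 := by ring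
      rw [h6]
      linarith
    rw [hl i]
    exact mul_le_mul h3 h5 (nsq_nonneg _) hcut
  calc ∑ i, Real.sqrt (Helper49_Pauli.sq (kk i)) *
      nsq (v i + (ldq (fun i j : Mode cut L => if i = j then kap else 0) 0 y i : ℂ) • w)
      ≤ ∑ i : Mode cut L, cut * (2 * (alpha * g ^ 2) + kap ^ 2 / 2 * nsq w * y i ^ 2) :=
        Finset.sum_le_sum fun i _ => h1 i
    _ = cut * (Fintype.card (Mode cut L) * (2 * (alpha * g ^ 2)) + kap ^ 2 / 2 * nsq w * nn y) := by
        unfold nn
        rw [← Finset.mul_sum, Finset.sum_add_distrib, Finset.mul_sum (a := kap ^ 2 / 2 * nsq w),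
          Finset.sum_const, Finset.card_univ, nsmul_eq_mul]
    _ ≤ cut * (Fintype.card (Mode cut L) * (2 * (alpha * g ^ 2)) + kap ^ 2 / 2 *
          (2 * g ^ 2 * (1 + alpha * Fintype.card (Mode cut L) * nn y)) * nn y) := by
        have := nn_nonneg y
        gcongr
    _ = _ := by ring

end modes

theorem upp (hCnt : CntStmt) (hUa1 : Ua1Stmt) (hUa2 : Ua2Stmt) : UppStmt := by
  intro alpha halpha
  obtain ⟨g, hg, hgc, hI0⟩ := exists_bump
  have i1 := grad_int hg hgc
  have i0 : Integrable fun x => g x ^ 2 := by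
    refine (hg.continuous.pow 2).integrable_of_hasCompactSupport ?_
    exact hgc.comp_left (g := fun t : ℝ => t ^ 2) (by simp)
  obtain ⟨I0, hI0d⟩ : ∃ I0, I0 = ∫ x, g x ^ 2 := ⟨_, rfl⟩
  obtain ⟨I1, hI1d⟩ : ∃ I1, I1 = ∫ x, ∑ j, pd j g x ^ 2 := ⟨_, rfl⟩
  rw [← hI0d] at hI0
  have hI1 : 0 ≤ I1 := by
    rw [hI1d]
    exact integral_nonneg fun x => Finset.sum_nonneg fun j _ => sq_nonneg _
  obtain ⟨C0, hC0⟩ : ∃ C0 : ℝ, C0 = 15 * I1 / I0 + 80 * (1 + alpha) := ⟨_, rfl⟩
  have hC0p : 0 < C0 := by rw [hC0]; positivity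
  refine ⟨64 * C0, 9, by positivity, fun cut L hcut hL hl P D _ _ F => ?_⟩
  obtain ⟨hM4, hM, hom⟩ := hCnt cut L hL hl
  obtain ⟨M, hMd⟩ : ∃ M : ℝ, M = (Fintype.card (Mode cut L) : ℝ) := ⟨_, rfl⟩
  obtain ⟨l, hld⟩ : ∃ l : ℝ, l = L * cut := ⟨_, rfl⟩
  have hM4' : (4 : ℝ) ≤ M := by rw [hMd]; exact_mod_cast hM4
  rw [← hMd, ← hld] at hM
  have hl1 : 1 ≤ l := by
    rw [hld]
    have := Real.pi_gt_three
    linarith
  have hcut0 : 0 < cut := by linarith
  obtain ⟨s, hs⟩ : ∃ s : ℝ, s = cut ^ ((1 / 3 : ℝ)) := ⟨_, rfl⟩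
  have hs1 : 1 ≤ s := by rw [hs]; exact Real.one_le_rpow hcut (by norm_num)
  have hs3 : s ^ 3 = cut := by
    rw [hs, ← Real.rpow_natCast, ← Real.rpow_mul hcut0.le]
    norm_num
  have hs4 : cut ^ ((4 / 3 : ℝ)) = s ^ 4 := by
    rw [hs, ← Real.rpow_natCast, ← Real.rpow_mul hcut0.le]
    norm_num
  have hs0 : 0 < s := by linarith
  have hM0 : 0 < M := by linarith
  obtain ⟨B, hB⟩ : ∃ B : ℝ, B = 4 * (1 + alpha) * M ^ 2 * s := ⟨_, rfl⟩
  have hB1 : 1 ≤ B := by
    rw [hB]
    have h1 : 1 ≤ M ^ 2 := one_le_pow₀ (by linarith)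
    have h2 : 1 ≤ 4 * (1 + alpha) := by linarith
    calc (1 : ℝ) = 1 * 1 * 1 := by ring
      _ ≤ 4 * (1 + alpha) * M ^ 2 * s := by gcongr
  have hB0 : 0 < B := by linarith
  obtain ⟨Z, hZ, e0, e1, e2⟩ := hUa2 (Mode cut L) (B - 1) (by linarith)
  have hB2 : 1 + (B - 1) = B := by ring
  rw [hB2, ← hMd] at e1 e2
  -- scalar estimates
  obtain ⟨q, hq⟩ : ∃ q : ℝ, q = alpha * M ^ 2 / B := ⟨_, rfl⟩
  have hq0 : 0 ≤ q := by rw [hq]; positivity
  have hqs : q * s ≤ 1 / 4 := by
    rw [hq, hB]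
    have : alpha * M ^ 2 / (4 * (1 + alpha) * M ^ 2 * s) * s = alpha / (4 * (1 + alpha)) := by
      field_simp
    rw [this, div_le_div_iff₀ (by positivity) (by norm_num)]
    linarith
  have hq4 : q ≤ 1 / 4 := by
    have : q * 1 ≤ q * s := by gcongr
    linarith
  have hMl : M ^ 3 ≤ 8 * l ^ 9 := by
    calc M ^ 3 ≤ (2 * l ^ 3) ^ 3 := by gcongr
      _ = 8 * l ^ 9 := by ring
  have hl9 : 1 ≤ l ^ 9 := one_le_pow₀ hl1
  have hs41 : 1 ≤ s ^ 4 := one_le_pow₀ hs1
  obtain ⟨R, hR⟩ : ∃ R : ℝ, R = (15 * I1 + 80 * (1 + alpha) * I0) * l ^ 9 * s ^ 4 := ⟨_, rfl⟩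
  have hRe : (4 * (C0 * l ^ 9 * s ^ 4)) * (Z * (I0 / 4)) = Z * R := by
    rw [hR, hC0]
    field_simp
  have sc1 : 12 * I1 + 12 * I1 * (alpha * M) * (M / B) +
      2 * I0 * (alpha ^ 2 * M ^ 2 * cut ^ 2) * (3 * M ^ 2 / B ^ 2) ≤ R := by
    have h1 : 12 * I1 + 12 * I1 * (alpha * M) * (M / B) +
      2 * I0 * (alpha ^ 2 * M ^ 2 * cut ^ 2) * (3 * M ^ 2 / B ^ 2) =
        12 * I1 + 12 * I1 * q + 6 * I0 * ((q * s) ^ 2 * s ^ 4) := by
      rw [hq, ← hs3]
      field_simp
      ring
    rw [h1]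
    have h2 : (q * s) ^ 2 ≤ 1 := by
      have : 0 ≤ q * s := by positivity
      nlinarith
    have h3 : 12 * I1 * q ≤ 12 * I1 * (1 / 4) := by gcongr
    have h4 : 6 * I0 * ((q * s) ^ 2 * s ^ 4) ≤ 6 * I0 * (1 * s ^ 4) := by gcongr
    have h5 : 15 * I1 * 1 ≤ 15 * I1 * (l ^ 9 * s ^ 4) := by
      have : 1 ≤ l ^ 9 * s ^ 4 := one_le_mul_of_one_le_of_one_le hl9 hs41
      gcongr
    have h6 : 6 * I0 * (1 * s ^ 4) ≤ 80 * (1 + alpha) * I0 * (l ^ 9 * s ^ 4) := by
      have : 6 * I0 ≤ 80 * (1 + alpha) * I0 := by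
        have : 6 ≤ 80 * (1 + alpha) := by linarith
        gcongr
      gcongr
    rw [hR]
    calc 12 * I1 + 12 * I1 * q + 6 * I0 * ((q * s) ^ 2 * s ^ 4)
        ≤ 15 * I1 * (l ^ 9 * s ^ 4) + 80 * (1 + alpha) * I0 * (l ^ 9 * s ^ 4) := by linarith
      _ = _ := by ring
  have sc2 : cut * (2 * alpha * M) * I0 + cut * (B - 1) ^ 2 * I0 * (M / B) +
      cut * ((B - 1) ^ 2 * (alpha * M)) * I0 * (3 * M ^ 2 / B ^ 2) ≤ R := by
    have h1 : (B - 1) ^ 2 ≤ B ^ 2 := by nlinarith
    have h2 : cut * (B - 1) ^ 2 * I0 * (M / B) ≤ cut * B ^ 2 * I0 * (M / B) := by gcongr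
    have h3 : cut * ((B - 1) ^ 2 * (alpha * M)) * I0 * (3 * M ^ 2 / B ^ 2) ≤
        cut * (B ^ 2 * (alpha * M)) * I0 * (3 * M ^ 2 / B ^ 2) := by gcongr
    have h4 : cut * B ^ 2 * I0 * (M / B) = cut * (4 * (1 + alpha) * M ^ 3 * s) * I0 := by
      have : cut * B ^ 2 * I0 * (M / B) = cut * B * I0 * M := by field_simp
      rw [this, hB]
      ring
    have h5 : cut * (B ^ 2 * (alpha * M)) * I0 * (3 * M ^ 2 / B ^ 2) =
        cut * (3 * alpha * M ^ 3) * I0 := by
      field_simp
    have h6 : M ≤ M ^ 3 := by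
      have : M * 1 ≤ M * M ^ 2 := by
        have : 1 ≤ M ^ 2 := one_le_pow₀ (by linarith)
        gcongr
      linarith [this, (by ring : M * M ^ 2 = M ^ 3)]
    have h7 : cut * (2 * alpha * M) * I0 ≤ cut * (2 * (1 + alpha) * M ^ 3 * s) * I0 := by
      have : 2 * alpha * M * 1 ≤ 2 * (1 + alpha) * M ^ 3 * s := by
        gcongr
        linarith
      rw [mul_one] at this
      gcongr
    have h8 : cut * (3 * alpha * M ^ 3) * I0 ≤ cut * (3 * (1 + alpha) * M ^ 3 * s) * I0 := by
      have : 3 * alpha * M ^ 3 * 1 ≤ 3 * (1 + alpha) * M ^ 3 * s := by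
        gcongr
        linarith
      rw [mul_one] at this
      gcongr
    have h9 : cut * (9 * (1 + alpha) * M ^ 3 * s) * I0 ≤
        cut * (9 * (1 + alpha) * (8 * l ^ 9) * s) * I0 := by gcongr
    have h10 : cut * (9 * (1 + alpha) * (8 * l ^ 9) * s) * I0 =
        72 * (1 + alpha) * I0 * (l ^ 9 * s ^ 4) := by
      rw [← hs3]
      ring
    have h11 : 72 * (1 + alpha) * I0 * (l ^ 9 * s ^ 4) ≤ 80 * (1 + alpha) * I0 * (l ^ 9 * s ^ 4) := by
      gcongr
      norm_num
    have h12 : 0 ≤ 15 * I1 * (l ^ 9 * s ^ 4) := by positivity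
    have h13 : R = 15 * I1 * (l ^ 9 * s ^ 4) + 80 * (1 + alpha) * I0 * (l ^ 9 * s ^ 4) := by
      rw [hR]
      ring
    have h14 : cut * (9 * (1 + alpha) * M ^ 3 * s) * I0 =
        cut * (2 * (1 + alpha) * M ^ 3 * s) * I0 + cut * (4 * (1 + alpha) * M ^ 3 * s) * I0 +
          cut * (3 * (1 + alpha) * M ^ 3 * s) * I0 := by ring
    rw [h13]
    linarith
  -- the trial function
  obtain ⟨u0, hu0⟩ : ∃ u0 : X3 → S2, u0 = (fun x => ((g x : ℝ) : ℂ) • chi0) := ⟨_, rfl⟩
  obtain ⟨u, hu⟩ : ∃ u : Mode cut L → X3 → S2,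
    u = (fun i x => -((g x : ℝ) : ℂ) • TT alpha P i x chi0) := ⟨_, rfl⟩
  obtain ⟨k1, k2, k3, k4, k5, k6⟩ := hUa1 alpha cut L P halpha hL hl g hg hgc u0 u hu0 hu
  rw [← hMd] at k6
  have hm1 : 0 ≤ M / B := by positivity
  have hm2 : 0 ≤ 3 * M ^ 2 / B ^ 2 := by positivity
  have L3 := fun (c0 c1 c2 : ℝ) (h0 : 0 ≤ c0) (h1 : 0 ≤ c1) (h2 : 0 ≤ c2) =>
    lin3 (ι := Mode cut L) (kap := B - 1) hZ.le hm1 hm2 e0 e1 e2 h0 h1 h2
  obtain ⟨psi, p1, p2, p3⟩ := assemble cut L alpha hL halpha.le P D F (Mode cut L)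
    (Half.rot F (Half.U P) (Half.unitary hL P)) kk
    (fun i j => Real.sqrt (2 / L ^ 3) * P.e i.1 i.2 j) tt
    (fun i => Half.sqn_wave_pos hL (Half.mode_ne i))
    (fun x j v => pot_eq hL P F x j v) (fun v => fe_eq hL P F v)
    (fun i j => if i = j then B - 1 else 0) 0
    (fun i j => by simp only [eq_comm]) (fun y => by
      unfold quad
      refine Finset.sum_nonneg fun i _ => ?_
      simp only [ite_mul, zero_mul, Finset.sum_ite_eq, Finset.mem_univ, if_true]
      have h1 : 0 ≤ B - 1 := by linarith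
      have h2 : (B - 1) * y i * y i = (B - 1) * y i ^ 2 := by ring
      rw [h2]
      positivity)
    u0 u k1 k2 k3 k4 (4 * (C0 * l ^ 9 * s ^ 4)) (Z * (I0 / 4)) (by positivity) (by positivity)
    (by
      rw [hRe]
      refine le_trans (lintegral_mono fun y => ?_) ((L3 (12 * I1) (12 * I1 * (alpha * M))
        (2 * I0 * (alpha ^ 2 * M ^ 2 * cut ^ 2)) (by positivity) (by positivity)
        (by positivity)).trans (ENNReal.ofReal_le_ofReal ?_))
      · have hn := nn_nonneg fun i => y i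
        have h1 := inner_le (sz_nonneg (B - 1) y)
          (a := 12 * (1 + alpha * M * nn fun i => y i))
          (b := 2 * (alpha ^ 2 * M ^ 2 * cut ^ 2 * (nn fun i => y i) ^ 2))
          (by positivity) (by positivity)
          (F := fun x => nsq (dop (vp alpha kk (fun i j => Real.sqrt (2 / L ^ 3) * P.e i.1 i.2 j) tt
            (fun i => y i)) (wf u0 u (fun i => y i)) x)) i1 i0
          (fun x => Finset.sum_nonneg fun j _ => sq_nonneg _) (fun x => sq_nonneg _) (by
            intro x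
            simp only
            rw [vp_eq hL]
            refine ((k6 (fun i => y i) x).1).trans (le_of_eq ?_)
            ring)
        rw [← hI1d, ← hI0d] at h1
        refine h1.trans (le_of_eq ?_)
        congr 1
        ring
      · exact mul_le_mul_of_nonneg_left sc1 hZ.le)
    (by
      rw [hRe]
      refine le_trans (lintegral_mono fun y => ?_) ((L3 (cut * (2 * alpha * M) * I0)
        (cut * (B - 1) ^ 2 * I0) (cut * ((B - 1) ^ 2 * (alpha * M)) * I0) (by positivity)
        (by positivity) (by positivity)).trans (ENNReal.ofReal_le_ofReal ?_))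
      · have hn := nn_nonneg fun i => y i
        have h1 := inner_le (sz_nonneg (B - 1) y)
          (a := 0)
          (b := cut * (2 * alpha * M + (B - 1) ^ 2 * (nn fun i => y i) +
            (B - 1) ^ 2 * (alpha * M) * (nn fun i => y i) ^ 2))
          le_rfl (by positivity)
          (F := fun x => ∑ i, Real.sqrt (Helper49_Pauli.sq (kk i)) *
            nsq (u i x + (ldq (fun i j : Mode cut L => if i = j then B - 1 else 0) 0
              (fun i => y i) i : ℂ) • wf u0 u (fun i => y i) x)) i1 i0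
          (fun x => Finset.sum_nonneg fun j _ => sq_nonneg _) (fun x => sq_nonneg _) (by
            intro x
            simp only
            have h2 := field_pt (kap := B - 1) hcut0.le (g := g x)
              (fun i => (hom i).2) (fun i => y i) (fun i => u i x) (wf u0 u (fun i => y i) x)
              (fun i => k5 i x) (by rw [← hMd]; exact (k6 (fun i => y i) x).2.1)
            rw [← hMd] at h2
            refine h2.trans (le_of_eq ?_)
            ring)
        rw [← hI1d, ← hI0d] at h1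
        refine h1.trans (le_of_eq ?_)
        congr 1
        ring
      · exact mul_le_mul_of_nonneg_left sc2 hZ.le)
    (by
      have h1 : ENNReal.ofReal (Z * (I0 / 2)) =
          ∫⁻ y, ENNReal.ofReal (sz (B - 1) y * (I0 / 2))
            ∂stdGaussian (EuclideanSpace ℝ (Mode cut L)) := by
        have h2 : ∀ y : EuclideanSpace ℝ (Mode cut L), ENNReal.ofReal (sz (B - 1) y * (I0 / 2)) =
            ENNReal.ofReal (sz (B - 1) y) * ENNReal.ofReal (I0 / 2) := fun y =>
          ENNReal.ofReal_mul (sz_nonneg _ _)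
        simp_rw [h2]
        rw [lintegral_mul_const' _ _ ENNReal.ofReal_ne_top, ENNReal.ofReal_mul hZ.le, ← e0]
        rfl
      have h3 : ∀ y : EuclideanSpace ℝ (Mode cut L), ENNReal.ofReal (sz (B - 1) y * (I0 / 2)) ≤
          (∫⁻ x, ENNReal.ofReal (sz (B - 1) y * nsq (wf u0 u (fun i => y i) x))) +
            ENNReal.ofReal (sz (B - 1) y * (0 + alpha * M * I0 * (nn fun i => y i) +
              0 * (nn fun i => y i) ^ 2)) := by
        intro y
        have hn := nn_nonneg fun i => y i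
        have hz := sz_nonneg (B - 1) y
        have h4 : ENNReal.ofReal (sz (B - 1) y * (I0 / 2)) =
            ∫⁻ x, ENNReal.ofReal (sz (B - 1) y * (1 / 2) * g x ^ 2) := by
          rw [← ofReal_integral_eq_lintegral_ofReal (i0.const_mul _)
            (Filter.Eventually.of_forall fun x => by positivity), integral_const_mul, ← hI0d]
          congr 1
          ring
        have h5 : ENNReal.ofReal (sz (B - 1) y * (0 + alpha * M * I0 * (nn fun i => y i) +
              0 * (nn fun i => y i) ^ 2)) =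
            ∫⁻ x, ENNReal.ofReal (sz (B - 1) y * (alpha * M * nn fun i => y i) * g x ^ 2) := by
          rw [← ofReal_integral_eq_lintegral_ofReal (i0.const_mul _)
            (Filter.Eventually.of_forall fun x => by positivity), integral_const_mul, ← hI0d]
          congr 1
          ring
        have hmg : Measurable fun x => ENNReal.ofReal
            (sz (B - 1) y * (alpha * M * nn fun i => y i) * g x ^ 2) :=
          ((hg.continuous.pow 2).measurable.const_mul _).ennreal_ofReal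
        rw [h4, h5, ← lintegral_add_right _ hmg]
        refine lintegral_mono fun x => ?_
        simp only
        rw [← ENNReal.ofReal_add (mul_nonneg hz (nsq_nonneg _)) (by positivity)]
        apply ENNReal.ofReal_le_ofReal
        have h6 := mul_le_mul_of_nonneg_left (k6 (fun i => y i) x).2.2 hz
        linarith
      have h7 : ENNReal.ofReal (Z * (I0 / 2)) ≤ (∫⁻ y, ∫⁻ x, ENNReal.ofReal
          (sz (B - 1) y * nsq (wf u0 u (fun i => y i) x)) ∂volume
            ∂stdGaussian (EuclideanSpace ℝ (Mode cut L))) + ENNReal.ofReal (Z * (I0 / 4)) := by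
        rw [h1]
        refine (lintegral_mono h3).trans ?_
        have hmm : Measurable fun y : EuclideanSpace ℝ (Mode cut L) => ENNReal.ofReal
            (sz (B - 1) y * (0 + alpha * M * I0 * (nn fun i => y i) +
              0 * (nn fun i => y i) ^ 2)) := by
          have hs := sz_cont (ι := Mode cut L) (B - 1)
          have hn := nn_cont (ι := Mode cut L)
          exact (hs.mul ((continuous_const.add (continuous_const.mul hn)).add
            (continuous_const.mul (hn.pow 2)))).measurable.ennreal_ofReal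
        rw [lintegral_add_right _ hmm]
        refine add_le_add le_rfl ?_
        refine (L3 0 (alpha * M * I0) 0 le_rfl (by positivity) le_rfl).trans
          (ENNReal.ofReal_le_ofReal ?_)
        refine mul_le_mul_of_nonneg_left ?_ hZ.le
        have h8 : 0 + alpha * M * I0 * (M / B) + 0 * (3 * M ^ 2 / B ^ 2) = q * I0 := by
          rw [hq]
          ring
        rw [h8]
        have h9 : q * I0 ≤ 1 / 4 * I0 := by gcongr
        linarith
      have h10 : ENNReal.ofReal (Z * (I0 / 2)) =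
          ENNReal.ofReal (Z * (I0 / 4)) + ENNReal.ofReal (Z * (I0 / 4)) := by
        rw [← ENNReal.ofReal_add (by positivity) (by positivity)]
        congr 1
        ring
      rw [h10] at h7
      exact (ENNReal.add_le_add_iff_right ENNReal.ofReal_ne_top).mp h7)
  have hE : selfEnergy alpha F P ≤ 16 * (4 * (C0 * l ^ 9 * s ^ 4)) :=
    selfEnergy_le Helper49_Pauli.symm hL P halpha.le F p1 p2 p3
  refine ⟨⟨psi, p1, p2.ne'⟩, ?_⟩
  rw [hs4, ← hld]
  refine hE.trans (le_of_eq ?_)
  ring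

end Pool.Agent.MBX.H88
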